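import Pool.Agent.Q102.SP.Res

set_option autoImplicit false

/-!
# Splaying is within a factor of four of the optimum on perfectly alternating requests

The definitions and the proofs are in `Pool.Agent.Q102.SP.Res`.

A request sequence is perfectly alternating for a binary reference tree if only the keys at its leaves
are requested and at each internal node `s` the requests to keys below `s` and above `s` in the subtree
alternate. (Examples: bit reversal permutations.) The inductive predicate `Alternating T X d` lists
these sequences `X`, together with a search tree `T` from which splaying starts, and the total number
`d` of alternations, that is, the sum of the depths of the requested leaves in the reference tree.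

On perfectly alternating sequences splaying costs exactly `|X| + 2 d`, while every execution,
starting from any tree, costs at least `|X| + d / 2`.
-/

namespace Pool.Agent.Results.MP_c42954_lc.FactorFour

open Pool.Agent.H581R2.Splay Pool.Agent.TH49.Spl Pool.Agent.Q102.SP.Res

theorem result (T : Tr) (X : List ℕ) (d : ℕ) (h : Alternating T X d) :
    IsBST T ∧ (∀ x ∈ X, x ∈ keys T) ∧
    -- the cost of splaying
    costSplay T X = X.length + 2 * d ∧
    -- the cost of an arbitrary execution, starting from any tree with these keys
    2 * X.length + d ≤ 2 * optAny (keys T) X ∧
    costSplay T X + 3 * X.length ≤ 4 * optAny (keys T) X :=
  Pool.Agent.Q102.SP.Res.P1 T X d h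

end Pool.Agent.Results.MP_c42954_lc.FactorFour
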