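import Pool.Agent.Q102.SP.Res

set_option autoImplicit false

/-!
# The constant of the dynamic optimality conjecture for splaying is at least `13/4`

The definitions and the proofs are in `Pool.Agent.Q102.SP.Res`.

For a self-similar family of request sequences both the cost of splaying and the optimal cost are
computed exactly: they are `(13 * 4 ^ j - 12 * 3 ^ j) N` and `(4 ^ (j + 1) - 3 ^ (j + 1)) N` for
`4 ^ j N` requests. So the constant of the dynamic optimality conjecture is at least `13/4`, even if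
an additive term which depends on the number of keys in an arbitrary way is allowed.
-/

namespace Pool.Agent.Results.MP_c42954_lc.RatioThirteenQuarters

open Pool.Agent.H581R2.Splay Pool.Agent.TH49.Spl Pool.Agent.Q102.SP.Res

theorem result :
    -- the competitive ratio is at least `13/4`
    (∀ (c : ℝ) (g : ℕ → ℝ), 0 ≤ c → c < 13 / 4 → ∃ (T : Tr) (X : List ℕ), IsBST T ∧
      (∀ x ∈ X, x ∈ keys T) ∧ c * opt T X + g (keys T).length < costSplay T X) ∧
    -- a family for which everything is known exactly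
    (∀ j : ℕ, ∃ (T : Tr) (X : ℕ → List ℕ) (K : ℕ), IsBST T ∧ ∀ N : ℕ,
      (∀ x ∈ X N, x ∈ keys T) ∧ (X N).length = 4 ^ j * N ∧
      costSplay T (X N) + 12 * 3 ^ j * N = 13 * 4 ^ j * N ∧
      optAny (keys T) (X N) + 3 ^ (j + 1) * N = 4 ^ (j + 1) * N ∧
      opt T (X N) ≤ optAny (keys T) (X N) + K) := by
  refine ⟨fun c g hc0 hc => P3 c g hc0 hc, fun j => ?_⟩
  obtain ⟨T, X, K, hT, h⟩ := P2 j
  refine ⟨T, X, K, hT, fun N => ?_⟩
  obtain ⟨⟨d, hd⟩, h1, h2, h3, h4⟩ := h N
  exact ⟨(P1 _ _ d hd).2.1, h1, h2, h3, h4⟩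

end Pool.Agent.Results.MP_c42954_lc.RatioThirteenQuarters
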