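import Pool.Agent.Q133.SQ.Conv

set_option autoImplicit false

/-!
# Perfectly alternating requests: the exact constant `13/4` when a rotation costs at least four

`Alternating T X d` (`Pool.Agent.Q102.SP.Res`, the class of the hand-in `FactorFour`): `X` is perfectly
alternating for a binary reference tree with `d` alternations in all, and `T` is the search tree from
which splaying starts. `Serve R X a b` (`Pool.Agent.Q133.SQ.Conv`): some execution for `X` from the tree
`R` has search cost `a` (a request `x` costs one plus its depth in the current tree) and uses `b`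
rotations (any rotations, after any request). We show `4 * costSplay T X ≤ 13 * (a + 4 * b)` for every
execution from every search tree that contains the keys of `T`, and that `13/4` cannot be lowered, even
for executions without rotations.

Proof (`Pool.Agent.Q133.SQ.{TreeL, Scan, Time, Join, Conv}`). An execution is a timeline of trees; the
slot of a request is the time from the previous request on. By induction on the reference tree there is
a set of charged requests (at even places only requests which are above the root during their whole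
slot, at odd places only requests which are below it), no four of them consecutive and at most `3/4` of
all, with `8 d ≤ 13 (sum of the depths) + 52 (rotations) + 12 (charged requests)`.
-/

namespace Pool.Agent.Results.MP_c42954_lc.RotationCostFour

open Pool.Agent.H581R2.Splay Pool.Agent.TH49.Spl Pool.Agent.Q102.SP.Res Pool.Agent.Q133.SQ

theorem result :
    -- every execution
    (∀ (T : Tr) (X : List ℕ) (d : ℕ), Alternating T X d → costSplay T X = X.length + 2 * d ∧
      ∀ (R : Tr) (a b : ℕ), IsBST R → (∀ k ∈ keys T, k ∈ keys R) → Serve R X a b →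
        4 * costSplay T X ≤ 13 * (a + 4 * b)) ∧
    -- the constant `13/4` is sharp
    (∀ c : ℝ, c < 13 / 4 → ∃ (T : Tr) (X : List ℕ) (d : ℕ) (R : Tr) (a : ℕ), Alternating T X d ∧
      IsBST R ∧ keys R = keys T ∧ Serve R X a 0 ∧ c * a < costSplay T X) := by
  refine ⟨fun T X d h => ⟨(P1 T X d h).2.2.1, fun R a b hR hk hs => ?_⟩, fun c hc => ?_⟩
  · have h1 := serve_ge (alt_iff.1 h) R hR hk hs
    have h2 := (P1 T X d h).2.2.1
    omega
  · have hj : ∃ j : ℕ, (12 - 3 * c) * 3 ^ j < (13 - 4 * c) * 4 ^ j := by
      have h1 : Filter.Tendsto (fun j : ℕ => (12 - 3 * c) * (3 / 4 : ℝ) ^ j) Filter.atTop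
          (nhds ((12 - 3 * c) * 0)) :=
        (tendsto_pow_atTop_nhds_zero_of_lt_one (by norm_num) (by norm_num)).const_mul _
      rw [mul_zero] at h1
      have h2 : (0 : ℝ) < 13 - 4 * c := by linarith
      obtain ⟨j, hj⟩ := (h1.eventually (gt_mem_nhds h2)).exists
      refine ⟨j, ?_⟩
      have h4 : (0 : ℝ) < 4 ^ j := by positivity
      have h5 : (3 / 4 : ℝ) ^ j = 3 ^ j / 4 ^ j := by rw [div_pow]
      rw [h5, ← mul_div_assoc, div_lt_iff₀ h4] at hj
      exact hj
    obtain ⟨j, hj⟩ := hj
    obtain ⟨d, hd, hd2⟩ := Pool.Agent.Q102.SP.TT_alt j 0 1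
    have ha := alt_iff.2 hd
    have hc1 := (P1 _ _ d ha).2.2.1
    have hlen := Pool.Agent.Q102.SP.XX_len j 0 1
    have hst := Pool.Agent.Q102.SP.OO_stat j 0 1
    refine ⟨Pool.Agent.Q102.SP.TT j 0, Pool.Agent.Q102.SP.XX j 0 1, d, Pool.Agent.Q102.SP.OO j 0,
      Pool.Agent.Q102.SP.stat (Pool.Agent.Q102.SP.OO j 0) (Pool.Agent.Q102.SP.XX j 0 1),
      ha, ?_, Pool.Agent.Q102.SP.OO_keys j 0, serve_static _ _, ?_⟩
    · unfold IsBST
      rw [Pool.Agent.Q102.SP.OO_keys]
      exact hd.bst
    · have e1 : (Pool.Agent.Q102.SP.stat (Pool.Agent.Q102.SP.OO j 0)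
          (Pool.Agent.Q102.SP.XX j 0 1) : ℝ) + 3 ^ (j + 1) * 1 = 4 ^ (j + 1) * 1 := by
        exact_mod_cast hst
      have e2 : (d : ℝ) + 6 * 3 ^ j * 1 = 6 * 4 ^ j * 1 := by exact_mod_cast hd2
      have e3 : (costSplay (Pool.Agent.Q102.SP.TT j 0) (Pool.Agent.Q102.SP.XX j 0 1) : ℝ) =
          4 ^ j * 1 + 2 * d := by
        rw [hc1, hlen]
        push_cast
        ring
      rw [e3]
      have e4 : (Pool.Agent.Q102.SP.stat (Pool.Agent.Q102.SP.OO j 0)
          (Pool.Agent.Q102.SP.XX j 0 1) : ℝ) = 4 * 4 ^ j - 3 * 3 ^ j := by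
        rw [pow_succ, pow_succ] at e1
        linarith
      rw [e4]
      have e5 : (d : ℝ) = 6 * 4 ^ j - 6 * 3 ^ j := by linarith
      rw [e5]
      linarith

end Pool.Agent.Results.MP_c42954_lc.RotationCostFour
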