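import Pool.Agent.Q167.DO.F
import Pool.Agent.Q167.DO.H

set_option autoImplicit false

/-!
# Splay trees are dynamically optimal for requests that are spread according to a law

`Tr`, `keys`, `IsBST`, `costSplay` are those of `Pool.Agent.H581R2.SplayDef`; `optAny K X`
(`Pool.Agent.TH49.Spl.Defs`) is the least cost of an execution for the requests `X`, over all initial
trees with the keys `K`. `nlog T = n log₂ (2 n)`, `n` the number of keys of `T`.

`X t` (`t = 0, 1, …`) are random requests on a probability space `(Ω, P)`, `reqs X m` is the list of the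
first `m` of them, and `allReqs X m` is the list of all requests of several phases `X j`, `j < J`, of the
lengths `m j`.

`Hits P X m Ks π K`: for every interval of keys `[l, r)` of weight `a` (with respect to `π`) and every
window of `w` successive requests, the probability that the window misses the interval is at most
`K / (w a)`. `Spread P X m Ks π A K`: moreover every such interval contains on average at most
`A (m a + 1)` of the `m` requests.

`Contracts μ Q ρ`: `Q` has row sums one and stationary weights `μ ≥ 0`, and contracts the functions of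
mean zero in `L²(μ)` by the factor `ρ`. `Bad α c`: `c > 0` and `q |q α - p| ≥ c` for all integers `p` and
all `q ≥ 1`.

The requests may have very little randomness: `x_t = a + b t mod p` with random `a`, `b` is pairwise
independent and uniform, and has only `2 log₂ p` bits of entropy altogether; a random walk on a graph
of degree `d` has `log₂ d` bits per step. (1) and (4) apply to a random walk on an expander whose
vertices are the keys.

Proof. The lower bound for OPT is the interleave bound for the splits of a weighted median tree. A split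
into parts of weights `a` and `b` is used once in a pair of windows of length `≈ 8 K / min (a, b)` with
probability at least `1/2`. The sum of `min (a, b)` over the splits is at least half of the mean depth
in the tree. In (3) - (5) the windows hit the intervals by Chebyshev's inequality, in (6) by Dirichlet's
approximation theorem.
-/

namespace Pool.Agent.Results.MP_c42954_lc.SpreadRequests

open Pool.Agent.H581R2.Splay Pool.Agent.TH49.Spl Pool.Agent.Q167.DO MeasureTheory ProbabilityTheory

theorem result {Ω : Type*} [MeasurableSpace Ω] (P : Measure Ω) [IsProbabilityMeasure P]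
    {St : Type*} [Fintype St] [DecidableEq St] (T : Tr) (hT : IsBST T) (hn : T ≠ Tr.nil) :
    -- (1) spread requests in several phases
    (∀ (J : ℕ) (X : Fin J → ℕ → Ω → ℕ) (m : Fin J → ℕ) (π : Fin J → ℕ → ℝ) (A K : ℝ),
      (∀ j t, Measurable (X j t)) → (∀ j t ω, X j t ω ∈ keys T) → (∀ j x, 0 ≤ π j x) →
      (∀ j, ∑ x ∈ (keys T).toFinset, π j x ≤ 1) → 1 ≤ A → 1 ≤ K →
      (∀ j, Spread P (X j) (m j) (keys T) (π j) A K) →
      ∫ ω, (costSplay T (allReqs X m ω) : ℝ) ∂P ≤
        800 * (A * K) * (∫ ω, (optAny (keys T) (allReqs X m ω) : ℝ) ∂P + J * nlog T) ∧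
      ∀ ε : ℝ, 0 < ε → P.real {ω | 3100 * (A * K) / ε ^ 2 *
        ((optAny (keys T) (allReqs X m ω) : ℝ) + J * nlog T) <
          (costSplay T (allReqs X m ω) : ℝ)} ≤ ε) ∧
    -- (2) flat laws: it suffices that the intervals are hit
    (∀ (J : ℕ) (X : Fin J → ℕ → Ω → ℕ) (m : Fin J → ℕ) (π : Fin J → ℕ → ℝ) (A δ K : ℝ),
      (∀ j t, Measurable (X j t)) → (∀ j t ω, X j t ω ∈ keys T) → (∀ j x, 0 ≤ π j x) →
      (∀ j, ∑ x ∈ (keys T).toFinset, π j x = 1) → 1 ≤ A → 0 < δ → δ ≤ 1 → 1 ≤ K →
      (∀ j, ∀ x ∈ keys T, π j x ≤ A * ((keys T).length : ℝ) ^ (-δ)) →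
      (∀ j, Hits P (X j) (m j) (keys T) (π j) K) →
      ∫ ω, (costSplay T (allReqs X m ω) : ℝ) ∂P ≤ 1600 * K * (1 + Real.logb 2 A) / δ *
        (∫ ω, (optAny (keys T) (allReqs X m ω) : ℝ) ∂P + J * nlog T) ∧
      ∀ ε : ℝ, 0 < ε → P.real {ω | 3100 * K * (1 + Real.logb 2 A) / (δ * ε) *
        ((optAny (keys T) (allReqs X m ω) : ℝ) + J * nlog T) <
          (costSplay T (allReqs X m ω) : ℝ)} ≤ ε) ∧
    -- (3) pairwise independent requests
    (∀ (X : ℕ → Ω → ℕ) (m : ℕ) (π : ℕ → ℝ), (∀ t, Measurable (X t)) →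
      (∀ t ω, X t ω ∈ keys T) → (∀ t, t < m → ∀ x ∈ keys T, P.real {ω | X t ω = x} = π x) →
      (∀ s t, s < t → t < m → IndepFun (X s) (X t) P) → Spread P X m (keys T) π 1 1) ∧
    -- (4) functions of a Markov chain
    (∀ (S : ℕ → Ω → St) (key : St → ℕ) (μ : St → ℝ) (Q : Matrix St St ℝ) (ρ : ℝ) (m : ℕ),
      (∀ t a, MeasurableSet {ω | S t ω = a}) → (∀ a, key a ∈ keys T) → Contracts μ Q ρ →
      0 ≤ ρ → ρ < 1 → 0 < m →
      (∀ s k, s + k < m → ∀ a b,
        P.real {ω | S s ω = a ∧ S (s + k) ω = b} = μ a * (Q ^ k) a b) →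
      (∀ t, Measurable fun ω => key (S t ω)) ∧
      ∑ x ∈ (keys T).toFinset, (∑ a, if key a = x then μ a else 0) = 1 ∧
      Spread P (fun t ω => key (S t ω)) m (keys T) (fun x => ∑ a, if key a = x then μ a else 0) 1
        (2 / (1 - ρ))) ∧
    -- (5) pairwise independent noise, the other requests arbitrary
    (∀ (X : ℕ → Ω → ℕ) (b : ℕ → Ω → Bool) (N : ℕ → Ω → ℕ) (m : ℕ) (π : ℕ → ℝ) (q : ℝ),
      (∀ t ω, X t ω ∈ keys T) → (∀ t, Measurable (b t)) → (∀ t, Measurable (N t)) →
      (∀ t, t < m → ∀ ω, b t ω = true → X t ω = N t ω) → 0 < q →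
      (∀ t, t < m → ∀ x ∈ keys T, P.real {ω | b t ω = true ∧ N t ω = x} = q * π x) →
      (∀ s t, s < t → t < m →
        IndepFun (fun ω => (b s ω, N s ω)) (fun ω => (b t ω, N t ω)) P) →
      Hits P X m (keys T) π (1 / q)) ∧
    -- (6) monotone functions of a rotation
    (∀ (α β c : ℝ) (F : ℝ → ℕ) (m : ℕ), Bad α c → MonotoneOn F (Set.Ico 0 1) →
      (∀ u, 0 ≤ u → u < 1 → F u ∈ keys T) →
      (costSplay T ((List.range m).map fun t : ℕ => F (Int.fract (α * (t : ℝ) + β))) : ℝ) ≤
        3200 / c ^ 2 *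
        ((optAny (keys T) ((List.range m).map fun t : ℕ => F (Int.fract (α * (t : ℝ) + β))) : ℝ) +
          nlog T)) := by
  have h1 : 1 ≤ (keys T).length := by
    cases T with
    | nil => exact absurd rfl hn
    | node a l r => simp only [keys, List.length_append, List.length_cons]; omega
  refine ⟨?_, ?_, ?_, ?_, ?_, ?_⟩
  · intro J X m π A K hX hK hπ0 hπ1 hA hK1 hS
    exact ⟨spread_E hT h1 hX hK hπ0 hπ1 hA hK1 hS,
      fun ε hε => spread_P hT h1 hX hK hπ0 hπ1 hA hK1 hS hε⟩
  · intro J X m π A δ K hX hK hπ0 hπ1 hA hδ hδ1 hK1 hθ hS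
    exact ⟨hits_E hT h1 hX hK hπ0 hπ1 hA hδ hδ1 hθ hK1 hS,
      fun ε hε => hits_P hT h1 hX hK hπ0 hπ1 hA hδ hδ1 hθ hK1 hS hε⟩
  · intro X m π hX hK hlaw hind
    exact spread_pair P hX hK hlaw hind
  · intro S key μ Q ρ m hS hkey hC hρ hρ1 hm hpair
    exact spread_markov P hS hkey hC hρ hρ1 hm hpair
  · intro X b N m π q hK hb hN hXN hq hlaw hind
    exact noise_hits P hK hb hN hXN hq hlaw hind
  · intro α β c F m hα hF hK
    exact kronecker hT h1 hα hF hK m

end Pool.Agent.Results.MP_c42954_lc.SpreadRequests
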